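import Pool.Agent.H3.GradedPreproj
import Pool.Agent.H3.GradedIface

/-!
# MP_12d20c_al, Q1: preprojective modules over graded right artinian rings are gradable

Right `R`-modules are modules over `Rᵐᵒᵖ`.
-/

namespace Pool.Agent.Results.MP_12d20c_al.Preprojective

universe u v

variable {R : Type u} [Ring R]

/-- The right `R`-module `N` is gradable with respect to the grading `𝒜` of `R`: there are
subgroups `ℳ i` (`i ∈ ℤ`) with `N = ⨁ ℳ i` and `(ℳ i) (𝒜 j) ⊆ ℳ (i + j)`. -/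
def IsGradable (𝒜 : ℤ → AddSubgroup R) (N : Type v) [AddCommGroup N] [Module Rᵐᵒᵖ N] : Prop :=
  ∃ ℳ : ℤ → AddSubgroup N, DirectSum.IsInternal ℳ ∧
    ∀ i j : ℤ, ∀ m ∈ ℳ i, ∀ r ∈ 𝒜 j, MulOpposite.op r • m ∈ ℳ (i + j)

/-- `D` is isomorphic to a direct summand of `Z`. -/
def IsSummand (D Z : Type v) [AddCommGroup D] [Module Rᵐᵒᵖ D] [AddCommGroup Z]
    [Module Rᵐᵒᵖ Z] : Prop :=
  ∃ (i : D →ₗ[Rᵐᵒᵖ] Z) (p : Z →ₗ[Rᵐᵒᵖ] D), p ∘ₗ i = LinearMap.id

/-- `Y` is a (finitely presented, indecomposable) preprojective right `R`-module. -/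
def IsPreprojective (Y : Type v) [AddCommGroup Y] [Module Rᵐᵒᵖ Y] : Prop :=
  Module.FinitePresentation Rᵐᵒᵖ Y ∧ Nontrivial Y ∧
  (∀ P Q : Submodule Rᵐᵒᵖ Y, IsCompl P Q → P = ⊥ ∨ Q = ⊥) ∧
  ∃ (X : Type v) (_ : AddCommGroup X) (_ : Module Rᵐᵒᵖ X), Module.FinitePresentation Rᵐᵒᵖ X ∧
    (¬ ∃ n : ℕ, IsSummand (R := R) Y (Fin n → X)) ∧
    ∀ (Z : Type v) [AddCommGroup Z] [Module Rᵐᵒᵖ Z], Module.FinitePresentation Rᵐᵒᵖ Z →
      ∀ f : Z →ₗ[Rᵐᵒᵖ] Y, Function.Surjective f →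
        (¬ ∃ s : Y →ₗ[Rᵐᵒᵖ] Z, f ∘ₗ s = LinearMap.id) →
        ∃ (D : Type v) (_ : AddCommGroup D) (_ : Module Rᵐᵒᵖ D), Nontrivial D ∧
          IsSummand (R := R) D Z ∧ ∃ n : ℕ, IsSummand (R := R) D (Fin n → X)

open Pool.Agent.H3.Graded in
/-- **MP_12d20c_al, Q1 is true.** -/
theorem result (𝒜 : ℤ → AddSubgroup R) [GradedRing 𝒜] [IsArtinian Rᵐᵒᵖ R]
    (Y : Type v) [AddCommGroup Y] [Module Rᵐᵒᵖ Y] (h : IsPreprojective (R := R) Y) :
    IsGradable 𝒜 Y := by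
  obtain ⟨hfpY, hnt, hind, X, _, _, hfpX, _, hX⟩ := h
  have : IsArtinian Rᵐᵒᵖ Rᵐᵒᵖ := artinian_op R
  have : IsArtinianRing Rᵐᵒᵖ := this
  have : IsNoetherianRing Rᵐᵒᵖ := inferInstance
  have hfY : Module.Finite Rᵐᵒᵖ Y := inferInstance
  have hfX : Module.Finite Rᵐᵒᵖ X := inferInstance
  have : IsNoetherian Rᵐᵒᵖ Y := isNoetherian_of_isNoetherianRing_of_finite _ Y
  have : IsNoetherian Rᵐᵒᵖ X := isNoetherian_of_isNoetherianRing_of_finite _ X
  have : IsArtinian Rᵐᵒᵖ Y := inferInstance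
  have : IsArtinian Rᵐᵒᵖ X := inferInstance
  have hY : Indec Rᵐᵒᵖ Y := by
    refine ⟨exists_ne 0, fun e hee => ?_⟩
    have hee' : ∀ y, e (e y) = e y := LinearMap.congr_fun hee
    have hc : IsCompl (LinearMap.range e) (LinearMap.ker e) := by
      constructor
      · rw [Submodule.disjoint_def]
        rintro _ ⟨y, rfl⟩ hy
        rw [LinearMap.mem_ker, hee'] at hy
        exact hy
      · rw [codisjoint_iff, eq_top_iff]
        intro y _
        rw [Submodule.mem_sup]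
        refine ⟨e y, ⟨y, rfl⟩, y - e y, ?_, by abel⟩
        rw [LinearMap.mem_ker, map_sub, hee', sub_self]
    rcases hind _ _ hc with h1 | h1
    · left
      exact LinearMap.range_eq_bot.1 h1
    · right
      ext y
      have h2 : y - e y ∈ LinearMap.ker e := by
        rw [LinearMap.mem_ker, map_sub, hee', sub_self]
      rw [h1, Submodule.mem_bot] at h2
      exact (sub_eq_zero.1 h2).symm
  obtain ⟨f, hf⟩ := FRG.exists_of_artinian (opRG 𝒜)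
  obtain ⟨H⟩ := gradable_of_preproj f hY (X := X) (by
    intro Z _ _ hZ r hr hsplit
    have hfpZ : Module.FinitePresentation Rᵐᵒᵖ Z :=
      Module.finitePresentation_of_finite Rᵐᵒᵖ Z
    obtain ⟨D, _, _, hD, ⟨i, p, hpi⟩, n, i', p', hpi'⟩ := hX Z hfpZ r hr (by
      rintro ⟨s, hs⟩
      exact hsplit ⟨s, fun y => LinearMap.congr_fun hs y⟩)
    have h1 : ∀ d, p (i d) = d := LinearMap.congr_fun hpi
    have h2 : ∀ d, p' (i' d) = d := LinearMap.congr_fun hpi'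
    refine ⟨n, i ∘ₗ p', i' ∘ₗ p, ?_, ?_⟩
    · intro q
      show i (p' (i' (p (i (p' (i' (p q))))))) = i (p' (i' (p q)))
      rw [h2, h1, h2]
    · obtain ⟨d, hd⟩ := exists_ne (0 : D)
      refine ⟨i d, ?_⟩
      show i (p' (i' (p (i d)))) ≠ 0
      rw [h1, h2]
      intro h0
      apply hd
      rw [← h1 d, h0, map_zero])
  rw [hf] at H
  exact grading_of_mg 𝒜 H

end Pool.Agent.Results.MP_12d20c_al.Preprojective
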